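import Pool.Agent.W956.KF.Defs

set_option autoImplicit false

/-!
# Computations in which only additions are counted: definitions
-/

namespace Pool.Agent.Helper16K9.Adds

/-- Let `L` be a field which contains the field `K`. From the set `H` of elements of `L` one obtains
`T` by operations of which `s` are additions. The other operations are free: constants from `K`
(so also subtractions cost one addition), multiplications, divisions, and extraction of `n`-th roots
(any `n`-th root in `L` may be taken) for `n ∈ N`. -/
inductive Comp (K : Type) {L : Type} [Field K] [Field L] [Algebra K L] (N : Set ℕ) (H : Set L) :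
    ℕ → Set L → Prop
  | start : Comp K N H 0 H
  | const {s : ℕ} {T : Set L} (c : K) : Comp K N H s T →
      Comp K N H s (insert (algebraMap K L c) T)
  | mul {s : ℕ} {T : Set L} {x y : L} : Comp K N H s T → x ∈ T → y ∈ T →
      Comp K N H s (insert (x * y) T)
  | div {s : ℕ} {T : Set L} {x y : L} : Comp K N H s T → x ∈ T → y ∈ T → y ≠ 0 →
      Comp K N H s (insert (x / y) T)
  | root {s n : ℕ} {T : Set L} {y : L} : Comp K N H s T → n ∈ N → y ^ n ∈ T →
      Comp K N H s (insert y T)
  | add {s : ℕ} {T : Set L} {x y : L} : Comp K N H s T → x ∈ T → y ∈ T →
      Comp K N H (s + 1) (insert (x + y) T)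

/-- The entries of the product of the matrices `(z (inl (i, k)))` and `(z (inr (k, j)))` can be
computed with `s` additions. -/
def MMAdds (K : Type) {L : Type} [Field K] [Field L] [Algebra K L] (N : Set ℕ) {m : ℕ}
    (z : (Fin m × Fin m) ⊕ (Fin m × Fin m) → L) (s : ℕ) : Prop :=
  ∃ T : Set L, Comp K N (Set.range z) s T ∧
    ∀ i j : Fin m, ∑ k, z (Sum.inl (i, k)) * z (Sum.inr (k, j)) ∈ T

/-- The variables as elements of the field of rational functions. -/
noncomputable def rfVar (F : Type) [Field F] (V : Type) (x : V) :
    FractionRing (MvPolynomial V F) :=
  algebraMap (MvPolynomial V F) (FractionRing (MvPolynomial V F)) (MvPolynomial.X x)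

/-- The least number of additions and subtractions of a computation over `F` of the product of two
generic `m × m` matrices, when multiplications and divisions are free. -/
noncomputable def addMM (F : Type) [Field F] (m : ℕ) : ℕ :=
  sInf {s | MMAdds F ∅ (rfVar F ((Fin m × Fin m) ⊕ (Fin m × Fin m))) s}

end Pool.Agent.Helper16K9.Adds
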