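import Pool.Agent.Helper16K9.Adds.Main

set_option autoImplicit false

/-!
# The question for the number of additions
-/

namespace Pool.Agent.Helper16K9.Adds

open Finset Pool.Agent.W956.KF Pool.Agent.H522R2 Pool.Agent.H522R2.Circuit
open Pool.Agent.Helper16K9.Fast Pool.Agent.H826R3.SM

theorem trank_le_two_size (F : Type) [Field F] (m : ℕ) : trank F m m m ≤ 2 * sizeMM F m := by
  obtain ⟨C, hC, hs⟩ := exists_circuit_MM F m
  have h1 : mulMM F m ≤ C.nonscalarCount := Nat.sInf_le ⟨C, hC, rfl⟩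
  have h2 := trank_le_mul (F := F) m
  have h3 := C.nonscalarCount_le_mulCount
  have h4 := C.mulCount_le_size
  omega

theorem addMM_le_size (F : Type) [Field F] (m : ℕ) : addMM F m ≤ sizeMM F m := by
  obtain ⟨C, hC, hs⟩ := exists_circuit_MM F m
  rw [← hs]
  exact (addMM_le C hC).trans (addCount_le_size C)

theorem superlinear_size_iff (F : Type) [Field F] :
    Superlinear (sizeMM F) ↔ 2 < omegaMM F :=
  superlinear_iff (K := F) (f := sizeMM F) (c := 2) (by norm_num) (trank_le_two_size F)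
    fun τ hτ => sizeMM_upper hτ

theorem adds_iff {F : Type} [Field F] [Infinite F] :
    Superlinear (sizeMM F) ↔
      ∃ α : ℝ, 1 < α ∧ ∃ c : ℝ, 0 < c ∧ ∀ m : ℕ, 2 ≤ m → c * (((m : ℝ) ^ 2) ^ α) ≤ addMM F m := by
  constructor
  · intro h
    rw [superlinear_size_iff] at h
    set ω := omegaMM F with hω
    refine ⟨ω / 2, by linarith, 1 - (2 : ℝ) ^ (2 - ω), ?_, fun m hm => ?_⟩
    · have : (2 : ℝ) ^ (2 - ω) < 1 := Real.rpow_lt_one_of_one_lt_of_neg (by norm_num) (by linarith)
      linarith
    · have hm0 : (0 : ℝ) < m := by exact_mod_cast (by omega : 0 < m)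
      have hm2 : (2 : ℝ) ≤ m := by exact_mod_cast hm
      have h1 := rpow_omega_le F m (by omega)
      rw [← hω] at h1
      have h2 : (trank F m m m : ℝ) ≤ addMM F m + (m : ℝ) ^ 2 := by
        exact_mod_cast trank_le_addMM (F := F) m
      have e1 : ((m : ℝ) ^ 2) ^ (ω / 2) = (m : ℝ) ^ ω := by
        rw [← Real.rpow_natCast (m : ℝ) 2, ← Real.rpow_mul hm0.le]
        congr 1
        push_cast
        ring
      have e2 : (m : ℝ) ^ 2 = (m : ℝ) ^ ω * (m : ℝ) ^ (2 - ω) := by
        rw [← Real.rpow_add hm0, ← Real.rpow_natCast (m : ℝ) 2]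
        congr 1
        push_cast
        ring
      have e3 : (m : ℝ) ^ (2 - ω) ≤ (2 : ℝ) ^ (2 - ω) :=
        Real.rpow_le_rpow_of_nonpos (by norm_num) hm2 (by linarith)
      have e4 : 0 < (m : ℝ) ^ ω := Real.rpow_pos_of_pos hm0 _
      have e5 := mul_le_mul_of_nonneg_left e3 e4.le
      rw [e1]
      nlinarith
  · rintro ⟨α, hα, c, hc, h⟩
    have h1 : 1 ≤ sizeMM F 1 := by
      have h2 := trank_le_two_size F 1
      have h3 := sq_le_trank F 1
      omega
    refine ⟨α, hα, min c 1, lt_min hc one_pos, fun m => ?_⟩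
    rcases Nat.lt_or_ge m 2 with hm | hm
    · interval_cases m
      · rw [Nat.cast_zero, zero_pow two_ne_zero, Real.zero_rpow (by linarith), mul_zero]
        exact Nat.cast_nonneg _
      · rw [Nat.cast_one, one_pow, Real.one_rpow, mul_one]
        have : (1 : ℝ) ≤ sizeMM F 1 := by exact_mod_cast h1
        exact (min_le_right _ _).trans this
    · have h2 := h m hm
      have h3 : (addMM F m : ℝ) ≤ sizeMM F m := by exact_mod_cast addMM_le_size F m
      have h4 : 0 ≤ ((m : ℝ) ^ 2) ^ α := by positivity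
      have h5 := mul_le_mul_of_nonneg_right (min_le_left c 1) h4
      linarith

end Pool.Agent.Helper16K9.Adds
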