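import Pool.Agent.Helper16K9.Adds.Defs
import Pool.Agent.H53R3.Der
import Pool.Agent.W956.KF.Run

set_option autoImplicit false
set_option linter.unusedSectionVars false

/-!
# Second logarithmic derivatives
-/

namespace Pool.Agent.Helper16K9.Adds

open Finset Pool.Agent.H53R3 Pool.Agent.W956.KF

variable {L : Type} [Field L] {X Y : Type} {D : X → L → L} {E : Y → L → L}

/-- the logarithmic derivative -/
def lg (D : X → L → L) (y : L) (a : X) : L := D a y / y

/-- the second logarithmic derivative -/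
def hs (D : X → L → L) (E : Y → L → L) (y : L) (t : X × Y) : L := E t.2 (lg D y t.1)

theorem der_inv {D : L → L} (hD : IsDer D) {y : L} (hy : y ≠ 0) : D y⁻¹ = -D y / y ^ 2 := by
  have h1 := hD.mul y y⁻¹
  rw [mul_inv_cancel₀ hy, hD.one] at h1
  have h2 : y * D y⁻¹ = -(D y * y⁻¹) := by linear_combination -h1
  field_simp
  field_simp at h2
  linear_combination h2

theorem der_div {D : L → L} (hD : IsDer D) {x y : L} (hy : y ≠ 0) :
    D (x / y) = D x / y - x * D y / y ^ 2 := by
  rw [div_eq_mul_inv, hD.mul, der_inv hD hy]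
  field_simp
  ring

theorem lg_mul (hD : ∀ a, IsDer (D a)) {x y : L} (hx : x ≠ 0) (hy : y ≠ 0) :
    lg D (x * y) = fun a => lg D x a + lg D y a := by
  funext a
  simp only [lg, (hD a).mul]
  field_simp

theorem lg_div (hD : ∀ a, IsDer (D a)) {x y : L} (hx : x ≠ 0) (hy : y ≠ 0) :
    lg D (x / y) = fun a => lg D x a - lg D y a := by
  funext a
  simp only [lg, der_div (hD a) hy]
  field_simp

theorem lg_pow (hD : ∀ a, IsDer (D a)) {y : L} (hy : y ≠ 0) (n : ℕ) :
    lg D (y ^ n) = fun a => (n : L) * lg D y a := by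
  induction n with
  | zero =>
    funext a
    simp only [lg, pow_zero, (hD a).one, Nat.cast_zero, zero_mul, zero_div]
  | succ n ih =>
    rw [pow_succ, lg_mul hD (pow_ne_zero n hy) hy, ih]
    funext a
    push_cast
    ring

theorem hs_mul (hD : ∀ a, IsDer (D a)) (hE : ∀ b, IsDer (E b)) {x y : L} (hx : x ≠ 0)
    (hy : y ≠ 0) : hs D E (x * y) = hs D E x + hs D E y := by
  funext t
  simp only [hs, lg_mul hD hx hy, Pi.add_apply, (hE t.2).add]

theorem hs_div (hD : ∀ a, IsDer (D a)) (hE : ∀ b, IsDer (E b)) {x y : L} (hx : x ≠ 0)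
    (hy : y ≠ 0) : hs D E (x / y) = hs D E x - hs D E y := by
  funext t
  simp only [hs, lg_div hD hx hy, Pi.sub_apply, (hE t.2).sub]

theorem hs_pow (hD : ∀ a, IsDer (D a)) (hE : ∀ b, IsDer (E b)) {y : L} (hy : y ≠ 0) (n : ℕ) :
    hs D E (y ^ n) = (n : L) • hs D E y := by
  induction n with
  | zero =>
    funext t
    simp only [hs, lg, pow_zero, (hD t.1).one, Nat.cast_zero, zero_smul, zero_div, (hE t.2).zero,
      Pi.zero_apply]
  | succ n ih =>
    rw [pow_succ, hs_mul hD hE (pow_ne_zero n hy) hy, ih]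
    funext t
    simp only [Pi.add_apply, Pi.smul_apply, smul_eq_mul]
    push_cast
    ring

/-- **The second logarithmic derivative of a sum** is a combination of those of the summands and
one matrix of rank one. -/
theorem hs_add (hD : ∀ a, IsDer (D a)) (hE : ∀ b, IsDer (E b)) {x y : L} (hx : x ≠ 0)
    (hy : y ≠ 0) (hxy : x + y ≠ 0) : hs D E (x + y) =
      (x / (x + y)) • hs D E x + (y / (x + y)) • hs D E y +
        (x / (x + y) * (y / (x + y))) • fun t : X × Y =>
          (lg D x t.1 - lg D y t.1) * (lg E x t.2 - lg E y t.2) := by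
  funext ⟨a, b⟩
  have h1 : ∀ z : L, z ≠ 0 → E b (lg D z a) = E b (D a z) / z - D a z * E b z / z ^ 2 :=
    fun z hz => der_div (hE b) hz
  simp only [hs, Pi.add_apply, Pi.smul_apply, smul_eq_mul]
  rw [h1 _ hxy, h1 _ hx, h1 _ hy]
  simp only [lg, (hD a).add, (hE b).add]
  field_simp
  ring

/-- matrices of rank one -/
def rone (v : (X → L) × (Y → L)) (t : X × Y) : L := v.1 t.1 * v.2 t.2

/-- **The invariant.** -/
theorem Comp.exists_span {K : Type} [Field K] [Algebra K L] {N : Set ℕ} {H : Set L}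
    (hD : ∀ a, IsDer (D a)) (hE : ∀ b, IsDer (E b))
    (hDK : ∀ a (c : K), D a (algebraMap K L c) = 0)
    (hN : ∀ n ∈ N, (n : L) ≠ 0) (hH : ∀ y ∈ H, y ≠ 0 → hs D E y = 0) {s : ℕ} {T : Set L}
    (h : Comp K N H s T) : ∃ v : Fin s → (X → L) × (Y → L), ∀ y ∈ T, y ≠ 0 →
      hs D E y ∈ Submodule.span L (Set.range fun l => rone (v l)) := by
  induction h with
  | start =>
    refine ⟨Fin.elim0, fun y hy h0 => ?_⟩
    rw [hH y hy h0]
    exact Submodule.zero_mem _
  | const c _ ih =>
    obtain ⟨v, hv⟩ := ih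
    refine ⟨v, ?_⟩
    rintro y (rfl | hy) h0
    · have : hs D E (algebraMap K L c) = 0 := by
        funext t
        simp only [hs, lg, hDK, zero_div, (hE t.2).zero, Pi.zero_apply]
      rw [this]
      exact Submodule.zero_mem _
    · exact hv y hy h0
  | mul _ hx hy ih =>
    obtain ⟨v, hv⟩ := ih
    refine ⟨v, ?_⟩
    rintro z (rfl | hz) h0
    · rw [hs_mul hD hE (left_ne_zero_of_mul h0) (right_ne_zero_of_mul h0)]
      exact Submodule.add_mem _ (hv _ hx (left_ne_zero_of_mul h0))
        (hv _ hy (right_ne_zero_of_mul h0))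
    · exact hv z hz h0
  | div _ hx hy hy0 ih =>
    obtain ⟨v, hv⟩ := ih
    refine ⟨v, ?_⟩
    rintro z (rfl | hz) h0
    · have hx0 := (div_ne_zero_iff.1 h0).1
      rw [hs_div hD hE hx0 hy0]
      exact Submodule.sub_mem _ (hv _ hx hx0) (hv _ hy hy0)
    · exact hv z hz h0
  | @root s n T y _ hn hy ih =>
    obtain ⟨v, hv⟩ := ih
    refine ⟨v, ?_⟩
    rintro z (rfl | hz) h0
    · have h1 := hv _ hy (pow_ne_zero n h0)
      rw [hs_pow hD hE h0] at h1
      have h2 := Submodule.smul_mem _ ((n : L)⁻¹) h1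
      rwa [smul_smul, inv_mul_cancel₀ (hN n hn), one_smul] at h2
    · exact hv z hz h0
  | @add s T x y _ hx hy ih =>
    obtain ⟨v, hv⟩ := ih
    refine ⟨Fin.snoc v (fun a => lg D x a - lg D y a, fun b => lg E x b - lg E y b), ?_⟩
    have hle : Submodule.span L (Set.range fun l => rone (v l)) ≤
        Submodule.span L (Set.range fun l => rone ((Fin.snoc v
          (fun a => lg D x a - lg D y a, fun b => lg E x b - lg E y b) :
            Fin (s + 1) → (X → L) × (Y → L)) l)) := by
      refine Submodule.span_mono ?_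
      rintro _ ⟨l, rfl⟩
      exact ⟨l.castSucc, by simp only [Fin.snoc_castSucc]⟩
    rintro z (rfl | hz) h0
    · by_cases hx0 : x = 0
      · subst hx0
        rw [zero_add] at h0 ⊢
        exact hle (hv _ hy h0)
      by_cases hy0 : y = 0
      · subst hy0
        rw [add_zero] at h0 ⊢
        exact hle (hv _ hx h0)
      rw [hs_add hD hE hx0 hy0 h0]
      refine Submodule.add_mem _ (Submodule.add_mem _ (Submodule.smul_mem _ _ (hle (hv _ hx hx0)))
        (Submodule.smul_mem _ _ (hle (hv _ hy hy0)))) (Submodule.smul_mem _ _ ?_)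
      refine Submodule.subset_span ⟨Fin.last s, ?_⟩
      simp only [Fin.snoc_last]
      rfl
    · exact hle (hv z hz h0)

/-- the second derivative in terms of the logarithmic ones -/
theorem second_eq (hE : ∀ b, IsDer (E b)) {y : L} (hy : y ≠ 0) (a : X) (b : Y) :
    E b (D a y) = y * hs D E y (a, b) + y * (lg D y a * lg E y b) := by
  have h1 : E b (lg D y a) = E b (D a y) / y - D a y * E b y / y ^ 2 := der_div (hE b) hy
  simp only [hs]
  rw [h1]
  simp only [lg]
  field_simp
  ring

/-- **From a computation to a tensor decomposition.** -/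
theorem rank_of_comp {K : Type} [Field K] [Algebra K L] {N : Set ℕ} {m : ℕ}
    {z : (Fin m × Fin m) ⊕ (Fin m × Fin m) → L} {s : ℕ}
    {D E : Fin m × Fin m → L → L} (hD : ∀ a, IsDer (D a)) (hE : ∀ b, IsDer (E b))
    (hDK : ∀ a (c : K), D a (algebraMap K L c) = 0)
    (hDz : ∀ a x, D a (z x) = if x = Sum.inl a then 1 else 0)
    (hEz : ∀ b x, E b (z x) = if x = Sum.inr b then 1 else 0)
    (hN : ∀ n ∈ N, (n : L) ≠ 0) (h : MMAdds K N z s) : RankLE L m m m (s + m ^ 2) := by
  classical
  obtain ⟨T, hT, hout⟩ := h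
  have hE0 : ∀ b, E b 0 = 0 := fun b => (hE b).zero
  have hE1 : ∀ b, E b 1 = 0 := fun b => (hE b).one
  have hH : ∀ y ∈ Set.range z, y ≠ 0 → hs D E y = 0 := by
    rintro _ ⟨x, rfl⟩ hx0
    funext ⟨a, b⟩
    simp only [hs, lg, hDz, Pi.zero_apply]
    by_cases hx : x = Sum.inl a
    · have hb : E b (z x) = 0 := by
        rw [hEz, if_neg]
        rw [hx]
        exact fun h => by cases h
      rw [if_pos hx, der_div (hE b) hx0, hE1, hb]
      simp
    · rw [if_neg hx, zero_div, hE0]
  obtain ⟨v, hv⟩ := hT.exists_span hD hE hDK hN hH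
  -- the outputs
  let c : Fin m → Fin m → L := fun i k => ∑ t, z (Sum.inl (i, t)) * z (Sum.inr (t, k))
  have hDc : ∀ (i k : Fin m) (a : Fin m × Fin m), D a (c i k) =
      if a.1 = i then z (Sum.inr (a.2, k)) else 0 := by
    intro i k a
    simp only [c, (hD a).sum, (hD a).mul, hDz]
    have e : ∀ t : Fin m, (if (Sum.inl (i, t) : (Fin m × Fin m) ⊕ (Fin m × Fin m)) = Sum.inl a
        then (1 : L) else 0) * z (Sum.inr (t, k)) + z (Sum.inl (i, t)) *
        (if (Sum.inr (t, k) : (Fin m × Fin m) ⊕ (Fin m × Fin m)) = Sum.inl a then 1 else 0) =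
        if t = a.2 then (if a.1 = i then z (Sum.inr (a.2, k)) else 0) else 0 := by
      intro t
      have hne : (Sum.inr (t, k) : (Fin m × Fin m) ⊕ (Fin m × Fin m)) ≠ Sum.inl a := by simp
      rw [if_neg hne, mul_zero, add_zero]
      by_cases ht : t = a.2
      · subst ht
        by_cases hi : a.1 = i
        · rw [if_pos rfl, if_pos hi, if_pos, one_mul]
          rw [← hi]
        · rw [if_pos rfl, if_neg hi, if_neg, zero_mul]
          intro h
          rw [Sum.inl.injEq] at h
          exact hi (by rw [← h])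
      · rw [if_neg ht, if_neg, zero_mul]
        intro h
        rw [Sum.inl.injEq] at h
        exact ht (by rw [← h])
    simp only [e]
    rw [Finset.sum_ite_eq' univ a.2, if_pos (mem_univ _)]
  have hEDc : ∀ (i k : Fin m) (a b : Fin m × Fin m), E b (D a (c i k)) =
      if a.1 = i ∧ a.2 = b.1 ∧ b.2 = k then 1 else 0 := by
    intro i k a b
    rw [hDc]
    by_cases hi : a.1 = i
    · rw [if_pos hi, hEz]
      refine if_congr ?_ rfl rfl
      rw [Sum.inr.injEq]
      constructor
      · intro h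
        rw [← h]
        exact ⟨hi, rfl, rfl⟩
      · rintro ⟨-, h1, h2⟩
        rw [h1, ← h2]
    · rw [if_neg hi, hE0, if_neg (fun h => hi h.1)]
  have hc0 : ∀ i k, c i k ≠ 0 := by
    intro i k h0
    have h1 := hEDc i k (i, i) (i, k)
    rw [h0, (hD _).zero, hE0, if_pos ⟨rfl, rfl, rfl⟩] at h1
    exact zero_ne_one h1
  choose w hw using fun i k => (Submodule.mem_span_range_iff_exists_fun L).1
    (hv (c i k) (hout i k) (hc0 i k))
  have h1 := rankLE_of_fintype (K := L) (m := m) (n := m) (p := m)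
    (T := Fin s ⊕ (Fin m × Fin m))
    (Sum.elim (fun l => Matrix.of fun i j => (v l).1 (i, j))
      (fun p => Matrix.of fun i j => lg D (c p.1 p.2) (i, j)))
    (Sum.elim (fun l => Matrix.of fun j k => (v l).2 (j, k))
      (fun p => Matrix.of fun j k => lg E (c p.1 p.2) (j, k)))
    (Sum.elim (fun l => Matrix.of fun i k => c i k * w i k l)
      (fun p => Matrix.of fun i k => if p = (i, k) then c i k else 0)) ?_
  · have h2 : Fintype.card (Fin s ⊕ (Fin m × Fin m)) = s + m ^ 2 := by
      rw [Fintype.card_sum, Fintype.card_prod, Fintype.card_fin, Fintype.card_fin, sq]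
    rwa [h2] at h1
  · intro i i' j j' k k'
    rw [Fintype.sum_sum_type]
    simp only [Sum.elim_inl, Sum.elim_inr, Matrix.of_apply]
    have e1 : ∑ p : Fin m × Fin m, lg D (c p.1 p.2) (i, j) * lg E (c p.1 p.2) (j', k) *
        (if p = (i', k') then c i' k' else 0) =
        c i' k' * (lg D (c i' k') (i, j) * lg E (c i' k') (j', k)) := by
      rw [Finset.sum_eq_single (i', k')]
      · rw [if_pos rfl]
        ring
      · intro p _ hp
        rw [if_neg hp, mul_zero]
      · intro h
        exact absurd (mem_univ _) h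
    have e2 : ∑ l : Fin s, (v l).1 (i, j) * (v l).2 (j', k) * (c i' k' * w i' k' l) =
        c i' k' * hs D E (c i' k') ((i, j), (j', k)) := by
      rw [← hw i' k', Finset.sum_apply, Finset.mul_sum]
      refine Finset.sum_congr rfl fun l _ => ?_
      simp only [Pi.smul_apply, smul_eq_mul, rone]
      ring
    rw [e1, e2, ← second_eq hE (hc0 i' k') (i, j) (j', k), hEDc]

end Pool.Agent.Helper16K9.Adds
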