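import Pool.Agent.Helper16K9.Adds.Log
import Pool.Agent.Helper16K9.Fast.Main
import Pool.Agent.W956.KF.RatFun

set_option autoImplicit false
set_option linter.unusedSectionVars false

/-!
# The number of additions and the rank
-/

namespace Pool.Agent.Helper16K9.Adds

open Finset Pool.Agent.H53R3 Pool.Agent.W956.KF Pool.Agent.H522R2 Pool.Agent.H522R2.Circuit
open MvPolynomial Pool.Agent.Helper16K9.Fast

/-! ### Rational functions -/

theorem exists_der_rf (F : Type) [Field F] (V : Type) [DecidableEq V] (i : V) :
    ∃ D : FractionRing (MvPolynomial V F) → FractionRing (MvPolynomial V F), IsDer D ∧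
      (∀ c : F, D (algebraMap F _ c) = 0) ∧
      ∀ j, D (rfVar F V j) = if j = i then 1 else 0 := by
  have hφ : ∀ x, (psi (gz_indep (F := F) (σ := V)) i x).fst = x := fun x => by
    rw [fst_psi, evz_gz]
  refine ⟨fun x => (psi (gz_indep (F := F) (σ := V)) i x).snd, ⟨fun a b => ?_, fun a b => ?_⟩,
    fun c => ?_, fun j => ?_⟩
  · simp only [map_add, TrivSqZeroExt.snd_add]
  · simp only [map_mul, TrivSqZeroExt.snd_mul, hφ, smul_eq_mul, MulOpposite.smul_eq_mul_unop,
      MulOpposite.unop_op]
    ring
  · have h1 : algebraMap F (FractionRing (MvPolynomial V F)) c =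
        algebraMap (MvPolynomial V F) (FractionRing (MvPolynomial V F)) (C c) := by
      rw [IsScalarTower.algebraMap_apply F (MvPolynomial V F) (FractionRing (MvPolynomial V F))]
      rfl
    simp only [h1, psi_algebraMap]
    simp [psi0]
  · simp only [rfVar]
    rw [psi_algebraMap]
    by_cases h : j = i <;> simp [psi0, h]

theorem trank_le_of_adds {F : Type} [Field F] [Infinite F] {m s : ℕ}
    (h : MMAdds F ∅ (rfVar F ((Fin m × Fin m) ⊕ (Fin m × Fin m))) s) :
    trank F m m m ≤ s + m ^ 2 := by
  classical
  choose D hD hDK hDz using exists_der_rf F ((Fin m × Fin m) ⊕ (Fin m × Fin m))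
  have h1 := rank_of_comp (D := fun a => D (Sum.inl a)) (E := fun b => D (Sum.inr b))
    (fun a => hD _) (fun b => hD _) (fun a c => hDK _ c)
    (fun a x => by rw [hDz]) (fun b x => by rw [hDz]) (fun n hn => absurd hn (by simp)) h
  exact trank_le (rank_descend h1)

/-! ### Extensions of algebraically closed fields -/

theorem rank_descend_closed {K L : Type} [Field K] [IsAlgClosed K] [Field L] [Algebra K L]
    {m n p r : ℕ} (h : RankLE L m n p r) : RankLE K m n p r := by
  classical
  obtain ⟨U, V, W, h⟩ := h
  let σ : Type := (Fin r × Fin m × Fin n) ⊕ (Fin r × Fin n × Fin p) ⊕ (Fin r × Fin m × Fin p)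
  let ι : Type := (Fin m × Fin m) × (Fin n × Fin n) × (Fin p × Fin p)
  let f : ι → MvPolynomial σ K := fun t =>
    ∑ l, X (Sum.inl (l, t.1.1, t.2.1.1)) * X (Sum.inr (Sum.inl (l, t.2.1.2, t.2.2.1))) *
      X (Sum.inr (Sum.inr (l, t.1.2, t.2.2.2))) -
      C (if t.1.1 = t.1.2 ∧ t.2.1.1 = t.2.1.2 ∧ t.2.2.1 = t.2.2.2 then 1 else 0)
  let I : Ideal (MvPolynomial σ K) := Ideal.span (Set.range f)
  let pt : σ → L := Sum.elim (fun t => U t.1 t.2.1 t.2.2)
    (Sum.elim (fun t => V t.1 t.2.1 t.2.2) (fun t => W t.1 t.2.1 t.2.2))
  have hI : I ≠ ⊤ := by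
    intro htop
    have h1 : ∀ q ∈ I, aeval pt q = 0 := by
      intro q hq
      induction hq using Submodule.span_induction with
      | mem q hq =>
        obtain ⟨⟨⟨i, i'⟩, ⟨j, j'⟩, ⟨k, k'⟩⟩, rfl⟩ := hq
        simp only [f, map_sub, map_sum, map_mul, aeval_X, aeval_C, pt, Sum.elim_inl,
          Sum.elim_inr]
        rw [h]
        split_ifs
        · simp
        · simp
      | zero => simp
      | add q q' _ _ hq hq' => rw [map_add, hq, hq', add_zero]
      | smul a q _ hq => rw [smul_eq_mul, map_mul, hq, mul_zero]
    have h3 := h1 1 (by rw [htop]; trivial)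
    rw [map_one] at h3
    exact one_ne_zero h3
  have hne : (zeroLocus K I).Nonempty := by
    by_contra hcon
    rw [Set.not_nonempty_iff_eq_empty] at hcon
    have h1 := vanishingIdeal_zeroLocus_eq_radical (k := K) (K := K) I
    rw [hcon, vanishingIdeal_empty] at h1
    exact hI (Ideal.radical_eq_top.1 h1.symm)
  obtain ⟨z, hz⟩ := hne
  refine ⟨fun l => Matrix.of fun i j => z (Sum.inl (l, i, j)),
    fun l => Matrix.of fun j k => z (Sum.inr (Sum.inl (l, j, k))),
    fun l => Matrix.of fun i k => z (Sum.inr (Sum.inr (l, i, k))), fun i i' j j' k k' => ?_⟩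
  have h1 := hz (f ((i, i'), (j, j'), (k, k'))) (Ideal.subset_span ⟨_, rfl⟩)
  simp only [f, map_sub, map_sum, map_mul, aeval_X, aeval_C] at h1
  rw [sub_eq_zero] at h1
  simp only [Matrix.of_apply]
  rw [h1]
  simp

theorem trank_le_of_roots {K L : Type} [Field K] [IsAlgClosed K] [CharZero K] [Field L]
    [Algebra K L] {m s : ℕ} {z : (Fin m × Fin m) ⊕ (Fin m × Fin m) → L}
    (hz : AlgebraicIndependent K z) (h : MMAdds K {n | n ≠ 0} z s) :
    trank K m m m ≤ s + m ^ 2 := by
  classical
  have : CharZero L := charZero_of_injective_algebraMap (algebraMap K L).injective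
  choose D hD hDK hDz using fun i => exists_der hz i
  have h1 := rank_of_comp (D := fun a => D (Sum.inl a)) (E := fun b => D (Sum.inr b))
    (fun a => hD _) (fun b => hD _) (fun a c => hDK _ c)
    (fun a x => by rw [hDz]) (fun b x => by rw [hDz])
    (fun n hn => by exact_mod_cast (show n ≠ 0 from hn)) h
  exact trank_le (rank_descend_closed h1)

/-! ### Circuits -/

/-- the number of addition gates -/
noncomputable def addCount {F V : Type} (C : Circuit F V) : ℕ :=
  Nat.card {k : Fin C.nodes // ∃ i j, C.gate k = Gate.add i j}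

theorem comp_of_circuit {F V : Type} [Field F] (C : Circuit F V) :
    ∃ T : Set (FractionRing (MvPolynomial V F)), Comp F ∅ (Set.range (rfVar F V)) (addCount C) T ∧
      ∀ k : Fin C.nodes, algebraMap (MvPolynomial V F) (FractionRing (MvPolynomial V F))
        (C.poly k) ∈ T := by
  classical
  have key : ∀ j ≤ C.nodes, ∃ T : Set (FractionRing (MvPolynomial V F)),
      Comp F ∅ (Set.range (rfVar F V))
        (Nat.card {k : Fin C.nodes // (k : ℕ) < j ∧ ∃ a b, C.gate k = Gate.add a b}) T ∧
      ∀ k : Fin C.nodes, (k : ℕ) < j →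
        algebraMap (MvPolynomial V F) (FractionRing (MvPolynomial V F)) (C.poly k) ∈ T := by
    intro j hj
    induction j with
    | zero =>
      refine ⟨Set.range (rfVar F V), ?_, fun k hk => absurd hk (Nat.not_lt_zero _)⟩
      have : Nat.card {k : Fin C.nodes // (k : ℕ) < 0 ∧ ∃ a b, C.gate k = Gate.add a b} = 0 := by
        rw [Nat.card_eq_zero]
        exact Or.inl ⟨fun k => absurd k.2.1 (Nat.not_lt_zero _)⟩
      rw [this]
      exact Comp.start
    | succ j ih =>
      obtain ⟨T, hT, hk⟩ := ih (by omega)
      let kj : Fin C.nodes := ⟨j, by omega⟩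
      have hstep : ∀ (T' : Set (FractionRing (MvPolynomial V F))), T ⊆ T' →
          algebraMap (MvPolynomial V F) (FractionRing (MvPolynomial V F)) (C.poly kj) ∈ T' →
          ∀ k : Fin C.nodes, (k : ℕ) < j + 1 →
            algebraMap (MvPolynomial V F) (FractionRing (MvPolynomial V F)) (C.poly k) ∈ T' := by
        intro T' hTT' hkj k hkk
        rcases Nat.lt_succ_iff_lt_or_eq.1 hkk with h1 | h1
        · exact hTT' (hk k h1)
        · have : k = kj := Fin.ext h1
          rw [this]
          exact hkj
      by_cases hadd : ∃ a b, C.gate kj = Gate.add a b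
      · have hcard : Nat.card {k : Fin C.nodes // (k : ℕ) < j + 1 ∧
            ∃ a b, C.gate k = Gate.add a b} =
            Nat.card {k : Fin C.nodes // (k : ℕ) < j ∧ ∃ a b, C.gate k = Gate.add a b} + 1 := by
          rw [Nat.card_eq_fintype_card, Nat.card_eq_fintype_card, Fintype.card_subtype,
            Fintype.card_subtype]
          have : (univ.filter fun k : Fin C.nodes => (k : ℕ) < j + 1 ∧
              ∃ a b, C.gate k = Gate.add a b) = insert kj (univ.filter fun k : Fin C.nodes =>
              (k : ℕ) < j ∧ ∃ a b, C.gate k = Gate.add a b) := by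
            ext k
            simp only [mem_filter, mem_univ, true_and, mem_insert]
            constructor
            · rintro ⟨h1, h2⟩
              rcases Nat.lt_succ_iff_lt_or_eq.1 h1 with h3 | h3
              · exact Or.inr ⟨h3, h2⟩
              · exact Or.inl (Fin.ext h3)
            · rintro (rfl | ⟨h1, h2⟩)
              · exact ⟨Nat.lt_succ_self _, hadd⟩
              · exact ⟨by omega, h2⟩
          rw [this, card_insert_of_notMem]
          simp [kj]
        rw [hcard]
        obtain ⟨a, b, hab⟩ := hadd
        have hp : algebraMap (MvPolynomial V F) (FractionRing (MvPolynomial V F)) (C.poly kj) =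
            algebraMap (MvPolynomial V F) (FractionRing (MvPolynomial V F)) (C.poly (C.up kj a)) +
            algebraMap (MvPolynomial V F) (FractionRing (MvPolynomial V F))
              (C.poly (C.up kj b)) := by
          rw [← map_add]
          congr 1
          rw [Circuit.poly, hab]
        refine ⟨_, hT.add (hk (C.up kj a) a.2) (hk (C.up kj b) b.2), ?_⟩
        rw [← hp]
        exact hstep _ (Set.subset_insert _ _) (Set.mem_insert _ _)
      · have hcard : Nat.card {k : Fin C.nodes // (k : ℕ) < j + 1 ∧
            ∃ a b, C.gate k = Gate.add a b} =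
            Nat.card {k : Fin C.nodes // (k : ℕ) < j ∧ ∃ a b, C.gate k = Gate.add a b} := by
          refine Nat.card_congr (Equiv.subtypeEquivRight fun k => ?_)
          constructor
          · rintro ⟨h1, h2⟩
            rcases Nat.lt_succ_iff_lt_or_eq.1 h1 with h3 | h3
            · exact ⟨h3, h2⟩
            · have : k = kj := Fin.ext h3
              rw [this] at h2
              exact absurd h2 hadd
          · rintro ⟨h1, h2⟩
            exact ⟨by omega, h2⟩
        rw [hcard]
        cases hg : C.gate kj with
        | var x =>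
          refine ⟨T, hT, hstep T subset_rfl ?_⟩
          have : C.poly kj = X x := by rw [Circuit.poly, hg]
          rw [this]
          have hsub : ∀ {s : ℕ} {T : Set (FractionRing (MvPolynomial V F))},
              Comp F ∅ (Set.range (rfVar F V)) s T → Set.range (rfVar F V) ⊆ T := by
            intro s T h
            induction h with
            | start => exact subset_rfl
            | const _ _ ih => exact ih.trans (Set.subset_insert _ _)
            | mul _ _ _ ih => exact ih.trans (Set.subset_insert _ _)
            | div _ _ _ _ ih => exact ih.trans (Set.subset_insert _ _)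
            | root _ _ _ ih => exact ih.trans (Set.subset_insert _ _)
            | add _ _ _ ih => exact ih.trans (Set.subset_insert _ _)
          exact hsub hT ⟨x, rfl⟩
        | const c =>
          refine ⟨_, hT.const c, hstep _ (Set.subset_insert _ _) ?_⟩
          have : C.poly kj = MvPolynomial.C c := by rw [Circuit.poly, hg]
          rw [this, IsScalarTower.algebraMap_apply F (MvPolynomial V F)
            (FractionRing (MvPolynomial V F))]
          exact Set.mem_insert _ _
        | add a b => exact absurd ⟨a, b, hg⟩ hadd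
        | mul a b =>
          refine ⟨_, hT.mul (hk (C.up kj a) a.2) (hk (C.up kj b) b.2),
            hstep _ (Set.subset_insert _ _) ?_⟩
          have : C.poly kj = C.poly (C.up kj a) * C.poly (C.up kj b) := by
            rw [Circuit.poly, hg]
          rw [this, map_mul]
          exact Set.mem_insert _ _
  obtain ⟨T, hT, hk⟩ := key C.nodes le_rfl
  have hcard : Nat.card {k : Fin C.nodes // (k : ℕ) < C.nodes ∧
      ∃ a b, C.gate k = Gate.add a b} = addCount C :=
    Nat.card_congr (Equiv.subtypeEquivRight fun k => ⟨fun h => h.2, fun h => ⟨k.2, h⟩⟩)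
  rw [hcard] at hT
  exact ⟨T, hT, fun k => hk k k.2⟩

theorem adds_of_circuit {F : Type} [Field F] {m : ℕ}
    (C : Circuit F ((Fin m × Fin m) ⊕ (Fin m × Fin m))) (hC : ComputesMM C) :
    MMAdds F ∅ (rfVar F ((Fin m × Fin m) ⊕ (Fin m × Fin m))) (addCount C) := by
  obtain ⟨T, hT, hk⟩ := comp_of_circuit C
  refine ⟨T, hT, fun i j => ?_⟩
  obtain ⟨v, hv⟩ := hC i j
  have h1 := hk v
  rw [hv, entryMM, map_sum] at h1
  simp only [map_mul] at h1
  exact h1

theorem addMM_nonempty (F : Type) [Field F] (m : ℕ) :
    {s | MMAdds F ∅ (rfVar F ((Fin m × Fin m) ⊕ (Fin m × Fin m))) s}.Nonempty := by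
  obtain ⟨C, hC, -⟩ := exists_circuit_MM F m
  exact ⟨_, adds_of_circuit C hC⟩

theorem addMM_le {F : Type} [Field F] {m : ℕ}
    (C : Circuit F ((Fin m × Fin m) ⊕ (Fin m × Fin m))) (hC : ComputesMM C) :
    addMM F m ≤ addCount C := Nat.sInf_le (adds_of_circuit C hC)

theorem addCount_le_size {F V : Type} (C : Circuit F V) : addCount C ≤ C.size := by
  classical
  unfold addCount Circuit.size
  exact Nat.card_le_card_of_injective
    (fun k : {k : Fin C.nodes // ∃ i j, C.gate k = Gate.add i j} =>
      (⟨k.1, Or.inl k.2⟩ : {k : Fin C.nodes //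
        (∃ i j, C.gate k = Gate.add i j) ∨ ∃ i j, C.gate k = Gate.mul i j}))
    fun a b h => by
      simp only [Subtype.mk.injEq] at h
      exact Subtype.ext h

theorem trank_le_addMM {F : Type} [Field F] [Infinite F] (m : ℕ) :
    trank F m m m ≤ addMM F m + m ^ 2 :=
  trank_le_of_adds (Nat.sInf_mem (addMM_nonempty F m))

end Pool.Agent.Helper16K9.Adds
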